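import Pool.Agent.BEL.StmtsE

/-!
# Squad BEL, row PRS: properties of the limit of the flows
-/

set_option autoImplicit false

namespace Pool.Agent.BEL.H95

open MeasureTheory Filter Topology Set
open scoped InnerProductSpace ENNReal NNReal

noncomputable section

theorem prs (hG : GrqStmt) (hL : FlpStmt) : PrsStmt := by
  intro H _ _ _ κ b om W F Z S hgrp hlip hmono hF0 hlim
  obtain ⟨g0, -, gn, -, -, gc, -, -⟩ := hG H κ b om W hgrp
  have hcont : ∀ n V, Continuous (Z n V) := fun n V =>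
    continuous_iff_continuousAt.2 fun t => ((hlim.fl n V).eq t).continuousAt
  have hpt : ∀ V t, 0 ≤ t → Tendsto (fun n => W t (Z n V t)) atTop (𝓝 (S t V)) := fun V t ht =>
    (hlim.lim V t).tendsto_at ⟨ht, le_refl t⟩
  have hflp : ∀ n V V', (∀ s t, s ≤ t → ‖Z n V t‖ ≤ ‖Z n V s‖) ∧
      (∀ s t, s ≤ t → ‖Z n V t - Z n V' t‖ ≤ ‖Z n V s - Z n V' s‖) := by
    intro n V V'
    obtain ⟨K, hK⟩ := hlip n
    obtain ⟨-, -, h1, h2, -⟩ := hL H κ b om W (F n) K hgrp hK (hmono n) (hF0 n) V V' (Z n V)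
      (Z n V') (hlim.fl n V) (hlim.fl n V')
    exact ⟨h1, h2⟩
  refine ⟨fun V => ?_, fun V => ?_, fun V s t hs hst => ?_, fun V V' t ht => ?_⟩
  · have h1 := hpt V 0 (le_refl 0)
    have h2 : (fun n => W 0 (Z n V 0)) = fun _ => V := by
      funext n
      rw [g0, (hlim.fl n V).z0]
    rw [h2] at h1
    exact tendsto_nhds_unique h1 tendsto_const_nhds
  · intro t0 ht0
    have h1 : ContinuousOn (fun t => S t V) (Icc 0 (t0 + 1)) :=
      (hlim.lim V (t0 + 1)).continuousOn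
        (Frequently.of_forall fun n => (gc (Z n V) (hcont n V)).continuousOn)
    have ht0' : (0 : ℝ) ≤ t0 := ht0
    have h2 := h1 t0 ⟨ht0', by linarith⟩
    refine h2.mono_of_mem_nhdsWithin ?_
    have h3 : Iio (t0 + 1) ∈ 𝓝 t0 := Iio_mem_nhds (by linarith)
    refine mem_nhdsWithin.2 ⟨Iio (t0 + 1), isOpen_Iio, by simp, ?_⟩
    rintro x ⟨hx1, hx2⟩
    exact ⟨hx2, le_of_lt hx1⟩
  · refine le_of_tendsto_of_tendsto' (hpt V t (le_trans hs hst)).norm (hpt V s hs).norm ?_
    intro n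
    rw [gn, gn]
    exact (hflp n V V).1 s t hst
  · refine le_of_tendsto' ((hpt V t ht).sub (hpt V' t ht)).norm ?_
    intro n
    rw [← map_sub, gn]
    have h1 := (hflp n V V').2 0 t ht
    rw [(hlim.fl n V).z0, (hlim.fl n V').z0] at h1
    exact h1

end

end Pool.Agent.BEL.H95
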